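import Pool.Agent.H18.AS.BotA

/-! # MP_1f2761, assembly: row BOT, the free bottom window -/

set_option autoImplicit false

open Finset Filter Topology

namespace Pool.Agent.H93.AS

open Pool.Agent.H27.Fact (sp sp_split sp_add_mul sp_zero card_shift card_R_le)

private theorem bot_num1 {θ : ℝ} (hθ : 0 < θ) : ∃ P₀ : ℕ, 2 ≤ P₀ ∧ ∀ p : ℕ, P₀ < p →
    Real.log p ≤ θ / 10 * Real.log 2 * ((p : ℝ) - 1) := by
  have hl2 : (0 : ℝ) < Real.log 2 := Real.log_pos (by norm_num)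
  have hc : 0 < θ / 10 * Real.log 2 / 2 := by positivity
  have h := (Real.isLittleO_pow_log_id_atTop (n := 1)).def hc
  have h2 := (tendsto_natCast_atTop_atTop (R := ℝ)).eventually h
  obtain ⟨P, hP⟩ := eventually_atTop.1 h2
  refine ⟨max P 2, le_max_right _ _, fun p hp => ?_⟩
  have hpP : P ≤ p := by
    have := le_max_left P 2
    omega
  have hp2 : 2 ≤ p := by
    have := le_max_right P 2
    omega
  have h3 := hP p hpP
  have hp2' : (2 : ℝ) ≤ p := by exact_mod_cast hp2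
  rw [pow_one, id, Real.norm_of_nonneg (Real.log_nonneg (by linarith only [hp2'])),
    Real.norm_of_nonneg (by positivity)] at h3
  have h4 : (p : ℝ) / 2 ≤ p - 1 := by linarith only [hp2']
  calc Real.log p ≤ θ / 10 * Real.log 2 / 2 * p := h3
    _ = θ / 10 * Real.log 2 * (p / 2) := by ring
    _ ≤ θ / 10 * Real.log 2 * ((p : ℝ) - 1) := mul_le_mul_of_nonneg_left h4 (by positivity)

private theorem bot_num2 {θ : ℝ} (hθ : 0 < θ) : ∃ L₀ : ℕ, 8 ≤ L₀ ∧ ∀ L : ℕ, L₀ ≤ L →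
    1 ≤ Real.log L ∧ 7200 * Real.log L ^ 2 ≤ θ * Real.log 2 * L := by
  have hl2 : (0 : ℝ) < Real.log 2 := Real.log_pos (by norm_num)
  have hc : 0 < θ * Real.log 2 / 7200 := by positivity
  have h := (Real.isLittleO_pow_log_id_atTop (n := 2)).def hc
  have h2 := (tendsto_natCast_atTop_atTop (R := ℝ)).eventually h
  obtain ⟨P, hP⟩ := eventually_atTop.1 h2
  refine ⟨max P 8, le_max_right _ _, fun L hL => ?_⟩
  have hpP : P ≤ L := (le_max_left P 8).trans hL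
  have hp2 : 8 ≤ L := (le_max_right P 8).trans hL
  have h3 := hP L hpP
  have hp2' : (8 : ℝ) ≤ L := by exact_mod_cast hp2
  have hL0 : (0 : ℝ) < L := by linarith only [hp2']
  rw [id, Real.norm_of_nonneg (by positivity), Real.norm_of_nonneg (by positivity)] at h3
  refine ⟨?_, ?_⟩
  · rw [Real.le_log_iff_exp_le hL0]
    have := Real.exp_one_lt_d9
    linarith only [this, hp2']
  · calc 7200 * Real.log L ^ 2 ≤ 7200 * (θ * Real.log 2 / 7200 * L) :=
          mul_le_mul_of_nonneg_left h3 (by norm_num)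
      _ = θ * Real.log 2 * L := by ring

/-- the number of levels -/
private theorem bot_j {θ : ℝ} {L B p : ℕ} (hp : 2 ≤ p) (hpL : p ≤ L ^ 4)
    (hL1 : 1 ≤ Real.log L) (hL2 : 7200 * Real.log L ^ 2 ≤ θ * Real.log 2 * L)
    (hθB : θ * L ≤ B) :
    θ * L * Real.log 2 / Real.log p ≤ (Nat.log p (2 ^ B) : ℝ) + 1 ∧
    1800 * Real.log L ≤ θ * L * Real.log 2 / Real.log p := by
  have hl2 : (0 : ℝ) < Real.log 2 := Real.log_pos (by norm_num)
  have hp' : (2 : ℝ) ≤ p := by exact_mod_cast hp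
  have hlp : 0 < Real.log p := Real.log_pos (by linarith only [hp'])
  have hj2 : 2 ^ B < p ^ (Nat.log p (2 ^ B) + 1) := Nat.lt_pow_succ_log_self (by omega) _
  generalize Nat.log p (2 ^ B) = j at *
  have hlogp : Real.log p ≤ 4 * Real.log L := by
    have h5 : (p : ℝ) ≤ (L : ℝ) ^ 4 := by exact_mod_cast hpL
    have h6 := Real.log_le_log (by linarith only [hp']) h5
    rwa [Real.log_pow] at h6
  have hρ1 : θ * L * Real.log 2 ≤ ((j : ℝ) + 1) * Real.log p := by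
    have h5 : (2 : ℝ) ^ B ≤ (p : ℝ) ^ (j + 1) := by exact_mod_cast hj2.le
    have h6 := Real.log_le_log (by positivity) h5
    rw [Real.log_pow, Real.log_pow] at h6
    push_cast at h6
    exact (mul_le_mul_of_nonneg_right hθB hl2.le).trans h6
  refine ⟨?_, ?_⟩
  · rw [div_le_iff₀ hlp]
    exact hρ1
  · rw [le_div_iff₀ hlp]
    calc 1800 * Real.log L * Real.log p ≤ 1800 * Real.log L * (4 * Real.log L) :=
          mul_le_mul_of_nonneg_left hlogp (by linarith only [hL1])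
      _ = 7200 * Real.log L ^ 2 := by ring
      _ ≤ θ * Real.log 2 * L := hL2
      _ = θ * L * Real.log 2 := by ring

/-- a good small prime -/
private theorem bot_small {θ : ℝ} {L B M a p : ℕ} (hp : 2 ≤ p) (hpL : p ≤ L ^ 4)
    (hP : Real.log p ≤ θ / 10 * Real.log 2 * ((p : ℝ) - 1)) (hL1 : 1 ≤ Real.log L)
    (hL2 : 7200 * Real.log L ^ 2 ≤ θ * Real.log 2 * L) (hL8 : 8 ≤ L) (hB : B ≤ L)
    (hθB : θ * L ≤ B) (ha : a ≤ M)
    (h1 : (1 / 2 - 1 / 20) * ((p : ℝ) - 1) * (Nat.log p (2 ^ B) : ℝ) ≤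
      sp p (a % p ^ Nat.log p (2 ^ B)))
    (h2 : (1 / 2 - 1 / 20) * ((p : ℝ) - 1) * (Nat.log p (2 ^ B) : ℝ) ≤
      sp p ((M - a) % p ^ Nat.log p (2 ^ B)))
    (h3 : (sp p (M % p ^ Nat.log p (2 ^ B)) : ℝ) ≤
      (1 / 2 + 1 / 20) * ((p : ℝ) - 1) * (Nat.log p (2 ^ B) : ℝ)) :
    (L : ℝ) / (p - 1) + 20 * Nat.log 2 L + 20 ≤ Cp p L M a := by
  have hl2 : (0 : ℝ) < Real.log 2 := Real.log_pos (by norm_num)
  have hl2' := Real.log_two_gt_d9
  have hp' : (2 : ℝ) ≤ p := by exact_mod_cast hp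
  have hL8' : (8 : ℝ) ≤ L := by exact_mod_cast hL8
  have hL0 : (0 : ℝ) < L := by linarith only [hL8']
  have hlp : 0 < Real.log p := Real.log_pos (by linarith only [hp'])
  have hj1 : p ^ Nat.log p (2 ^ B) ≤ 2 ^ B := Nat.pow_log_le_self p (by positivity)
  have hjB : Nat.log p (2 ^ B) ≤ B := by
    have : 2 ^ Nat.log p (2 ^ B) ≤ 2 ^ B := (Nat.pow_le_pow_left hp _).trans hj1
    exact (Nat.pow_le_pow_iff_right (by norm_num)).1 this
  have h4 := bot_cp hp (L := L) ha (hjB.trans hB) h1 h2 h3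
  obtain ⟨hρj, hρT⟩ := bot_j hp hpL hL1 hL2 hθB
  generalize Nat.log p (2 ^ B) = j at *
  set ρ : ℝ := θ * L * Real.log 2 / Real.log p with hρ
  have hp1 : (0 : ℝ) < (p : ℝ) - 1 := by linarith only [hp']
  have h5 : (L : ℝ) / (p - 1) ≤ ρ / 10 := by
    rw [hρ, div_le_iff₀ hp1, div_div, div_mul_eq_mul_div, le_div_iff₀ (by positivity)]
    calc (L : ℝ) * (Real.log p * 10) ≤ L * ((θ / 10 * Real.log 2 * ((p : ℝ) - 1)) * 10) := by
          apply mul_le_mul_of_nonneg_left _ hL0.le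
          linarith only [hP]
      _ = θ * L * Real.log 2 * (p - 1) := by ring
  have h6 : ((1 / 2 - 1 / 20) * ((p : ℝ) - 1) * j + (1 / 2 - 1 / 20) * ((p : ℝ) - 1) * j -
      (1 / 2 + 1 / 20) * ((p : ℝ) - 1) * j) / ((p : ℝ) - 1) = 7 / 20 * j := by
    field_simp
    ring
  rw [h6] at h4
  have h7 : (Nat.log 2 L : ℝ) ≤ 3 / 2 * Real.log L := by
    have h8 : (2 : ℝ) ^ Nat.log 2 L ≤ L := by exact_mod_cast Nat.pow_log_le_self 2 (by omega)
    have h9 := Real.log_le_log (by positivity) h8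
    rw [Real.log_pow] at h9
    have h10 : (Nat.log 2 L : ℝ) * (2 / 3) ≤ Nat.log 2 L * Real.log 2 :=
      mul_le_mul_of_nonneg_left (by linarith only [hl2']) (Nat.cast_nonneg _)
    linarith only [h9, h10]
  linarith only [h4, h5, h7, hρj, hρT, hL1]

/-- numbers for the count -/
private theorem bot_num3 {L : ℕ} (hL1 : 1 ≤ Real.log L) (hL8 : 8 ≤ L) {j : ℝ}
    (hj : 1800 * Real.log L ≤ j + 1) : 48 * (L : ℝ) ^ 4 * Real.exp (-(j / 200)) ≤ 1 := by
  have hL0 : (0 : ℝ) < L := by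
    have : (8 : ℝ) ≤ L := by exact_mod_cast hL8
    linarith only [this]
  have h1 : Real.exp (Real.log L) = L := Real.exp_log hL0
  have h2 : (L : ℝ) ^ 4 = Real.exp (4 * Real.log L) := by
    rw [← h1, ← Real.exp_nat_mul, h1]
    norm_num
  have h3 : (48 : ℝ) ≤ Real.exp 4 := by
    have h4 : Real.exp 4 = Real.exp 1 ^ 4 := by
      rw [← Real.exp_nat_mul]
      norm_num
    have h5 := Real.exp_one_gt_d9
    rw [h4]
    calc (48 : ℝ) ≤ (27 / 10) ^ 4 := by norm_num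
      _ ≤ Real.exp 1 ^ 4 := pow_le_pow_left₀ (by norm_num) (by linarith only [h5]) 4
  calc 48 * (L : ℝ) ^ 4 * Real.exp (-(j / 200)) ≤
      Real.exp 4 * Real.exp (4 * Real.log L) * Real.exp (-(j / 200)) := by
        rw [h2]
        gcongr
    _ = Real.exp (4 + 4 * Real.log L + -(j / 200)) := by rw [Real.exp_add, Real.exp_add]
    _ ≤ 1 := by
        rw [Real.exp_le_one_iff]
        linarith only [hj, hL1]

private theorem bot_num4 {θ : ℝ} {L B : ℕ} (hL1 : 1 ≤ Real.log L)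
    (hL2 : 7200 * Real.log L ^ 2 ≤ θ * Real.log 2 * L) (hL8 : 8 ≤ L) (hθB : θ * L ≤ B) :
    8 * (L : ℝ) ^ 3 ≤ 2 ^ B := by
  have hl2 : (0 : ℝ) < Real.log 2 := Real.log_pos (by norm_num)
  have hL0 : (0 : ℝ) < L := by
    have : (8 : ℝ) ≤ L := by exact_mod_cast hL8
    linarith only [this]
  have h0 : Real.log 8 ≤ 7 := by
    have := Real.log_le_sub_one_of_pos (x := 8) (by norm_num)
    linarith only [this]
  rw [← Real.log_le_log_iff (by positivity) (by positivity), Real.log_mul (by norm_num)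
    (by positivity), Real.log_pow, Real.log_pow]
  have h1 : θ * L * Real.log 2 ≤ B * Real.log 2 := mul_le_mul_of_nonneg_right hθB hl2.le
  have h2 : Real.log L ≤ Real.log L ^ 2 := by nlinarith only [hL1]
  push_cast
  linarith only [h0, h1, h2, hL2, hL1]

theorem bot : BOTStmt := by
  classical
  intro θ hθ
  obtain ⟨P₀, hP2, hP₀⟩ := bot_num1 hθ
  obtain ⟨L₀, hL8, hL₀⟩ := bot_num2 hθ
  refine ⟨P₀, L₀, fun L hL B hB hθB M hM hT α hα => ?_⟩
  obtain ⟨hL1, hL2⟩ := hL₀ L hL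
  replace hL8 : 8 ≤ L := hL8.trans hL
  have hL8' : (8 : ℝ) ≤ L := by exact_mod_cast hL8
  have hL0 : (0 : ℝ) < L := by linarith only [hL8']
  have hU8 := bot_num4 hL1 hL2 hL8 hθB
  have hUpos : (0 : ℝ) < 2 ^ B := by positivity
  have hLU : L ≤ 2 ^ B := by
    have h1 : (L : ℝ) ≤ 2 ^ B := by
      refine le_trans ?_ hU8
      have h2 : (1 : ℝ) ≤ (L : ℝ) ^ 2 := one_le_pow₀ (by linarith only [hL8'])
      have h3 : 8 * (L : ℝ) ^ 3 = 8 * L ^ 2 * L := by ring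
      rw [h3]
      nlinarith only [h2, hL0]
    exact_mod_cast h1
  have hLM : L ≤ M := by
    have : 2 ^ B ≤ α * 2 ^ B + 2 ^ B := Nat.le_add_left _ _
    omega
  -- bad sets
  set S : Finset ℕ := (range (L ^ 4 + 1)).filter fun p => p.Prime ∧ P₀ < p with hS
  set R : Finset ℕ := (range (M + 1)).filter fun p => p.Prime ∧ L ^ 4 < p ∧ M % p < L with hR
  set B1 : ℕ → Finset ℕ := fun p => (range (2 ^ B)).filter fun u =>
    (sp p ((α * 2 ^ B + u) % p ^ Nat.log p (2 ^ B)) : ℝ) ≤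
      (1 / 2 - 1 / 20) * (p - 1) * (Nat.log p (2 ^ B) : ℕ) with hB1
  set B2 : ℕ → Finset ℕ := fun p => (range (2 ^ B)).filter fun u =>
    (sp p ((M - (α * 2 ^ B + u)) % p ^ Nat.log p (2 ^ B)) : ℝ) ≤
      (1 / 2 - 1 / 20) * (p - 1) * (Nat.log p (2 ^ B) : ℕ) with hB2
  set B3 : ℕ → Finset ℕ := fun p => (range (2 ^ B)).filter fun u =>
    (α * 2 ^ B + u) % p < L with hB3
  have hSp : ∀ p ∈ S, 2 ≤ p ∧ P₀ < p ∧ p ≤ L ^ 4 ∧ p.Prime := by
    intro p hp
    rw [hS, mem_filter, mem_range] at hp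
    exact ⟨hp.2.1.two_le, hp.2.2, by omega, hp.2.1⟩
  have hj : ∀ p ∈ S, 1800 * Real.log L ≤ (Nat.log p (2 ^ B) : ℝ) + 1 := by
    intro p hp
    obtain ⟨h2, hPp, hpL, hpp⟩ := hSp p hp
    have h3 := bot_j h2 hpL hL1 hL2 hθB
    exact h3.2.trans h3.1
  have hcS : (S.card : ℝ) ≤ 2 * (L : ℝ) ^ 4 := by
    have h1 : S.card ≤ L ^ 4 + 1 := (card_filter_le _ _).trans (card_range _).le
    have h2 : (S.card : ℝ) ≤ (L : ℝ) ^ 4 + 1 := by exact_mod_cast h1
    have h3 : (1 : ℝ) ≤ (L : ℝ) ^ 4 := one_le_pow₀ (by linarith only [hL8'])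
    linarith only [h2, h3]
  have hb12 : ∀ p ∈ S, (48 * (L : ℝ) ^ 4) * ((B1 p).card : ℝ) ≤ 3 * 2 ^ B ∧
      (48 * (L : ℝ) ^ 4) * ((B2 p).card : ℝ) ≤ 3 * 2 ^ B := by
    intro p hp
    obtain ⟨h2, hPp, hpL, hpp⟩ := hSp p hp
    have hj1 : p ^ Nat.log p (2 ^ B) ≤ 2 ^ B := Nat.pow_log_le_self p (by positivity)
    have h3 := bot_num3 hL1 hL8 (hj p hp)
    have h4 := bot_e1 h2 hj1 (α * 2 ^ B)
    have h5 := bot_e2 h2 hj1 hα
    have h6 : (48 * (L : ℝ) ^ 4) * (3 * 2 ^ B * Real.exp (-((Nat.log p (2 ^ B) : ℝ) / 200))) ≤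
        3 * 2 ^ B := by
      calc (48 * (L : ℝ) ^ 4) * (3 * 2 ^ B * Real.exp (-((Nat.log p (2 ^ B) : ℝ) / 200))) =
          3 * 2 ^ B * (48 * (L : ℝ) ^ 4 * Real.exp (-((Nat.log p (2 ^ B) : ℝ) / 200))) := by ring
        _ ≤ 3 * 2 ^ B * 1 := mul_le_mul_of_nonneg_left h3 (by positivity)
        _ = 3 * 2 ^ B := mul_one _
    exact ⟨(mul_le_mul_of_nonneg_left h4 (by positivity)).trans h6,
      (mul_le_mul_of_nonneg_left h5 (by positivity)).trans h6⟩
  have hb3 : ∀ p ∈ R, ((B3 p).card : ℝ) ≤ L * (2 ^ B / L ^ 4 + 1) := by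
    intro p hp
    rw [hR, mem_filter, mem_range] at hp
    have h1 := bot_e3 (p := p) (L := L) (2 ^ B) (α * 2 ^ B)
    have h2 : ((B3 p).card : ℝ) ≤ L * (((2 ^ B / p : ℕ) : ℝ) + 1) := by exact_mod_cast h1
    refine h2.trans (mul_le_mul_of_nonneg_left ?_ hL0.le)
    have h3 : ((2 ^ B / p : ℕ) : ℝ) ≤ ((2 ^ B : ℕ) : ℝ) / p := Nat.cast_div_le
    have h4 : (L : ℝ) ^ 4 ≤ p := by exact_mod_cast hp.2.2.1.le
    have h5 : ((2 ^ B : ℕ) : ℝ) / p ≤ 2 ^ B / L ^ 4 := by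
      push_cast
      exact div_le_div_of_nonneg_left hUpos.le (by positivity) h4
    linarith only [h3, h5]
  have hcR : (R.card : ℝ) ≤ (L : ℝ) * L := by
    have h1 : R.card ≤ L * Nat.log 2 M := card_R_le hLM
    have h2 : Nat.log 2 M ≤ L := by
      rcases Nat.eq_zero_or_pos M with h | h
      · rw [h]
        simp
      · exact (Nat.log_lt_of_lt_pow h.ne' hM).le
    exact_mod_cast h1.trans (Nat.mul_le_mul_left L h2)
  have hex : ∃ u < 2 ^ B, (∀ p ∈ S, u ∉ B1 p) ∧ (∀ p ∈ S, u ∉ B2 p) ∧ ∀ p ∈ R, u ∉ B3 p := by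
    by_contra hcon
    push Not at hcon
    have hsub : range (2 ^ B) ⊆ (S.biUnion B1 ∪ S.biUnion B2) ∪ R.biUnion B3 := by
      intro u hu
      rw [mem_union, mem_union]
      by_cases h1 : ∀ p ∈ S, u ∉ B1 p
      · by_cases h2 : ∀ p ∈ S, u ∉ B2 p
        · obtain ⟨p, hp, hup⟩ := hcon u (mem_range.1 hu) h1 h2
          exact Or.inr (mem_biUnion.2 ⟨p, hp, hup⟩)
        · push Not at h2
          obtain ⟨p, hp, hup⟩ := h2
          exact Or.inl (Or.inr (mem_biUnion.2 ⟨p, hp, hup⟩))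
      · push Not at h1
        obtain ⟨p, hp, hup⟩ := h1
        exact Or.inl (Or.inl (mem_biUnion.2 ⟨p, hp, hup⟩))
    have h1 : ((2 : ℝ) ^ B) ≤ ∑ p ∈ S, ((B1 p).card : ℝ) + ∑ p ∈ S, ((B2 p).card : ℝ) +
        ∑ p ∈ R, ((B3 p).card : ℝ) := by
      have h2 := (card_le_card hsub).trans ((card_union_le _ _).trans
        (Nat.add_le_add ((card_union_le _ _).trans (Nat.add_le_add card_biUnion_le
          card_biUnion_le)) card_biUnion_le))
      rw [card_range] at h2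
      exact_mod_cast h2
    have hL4 : (0 : ℝ) < 48 * (L : ℝ) ^ 4 := by positivity
    have hs : ∀ Q : ℕ → Finset ℕ, (∀ p ∈ S, (48 * (L : ℝ) ^ 4) * ((Q p).card : ℝ) ≤ 3 * 2 ^ B) →
        ∑ p ∈ S, ((Q p).card : ℝ) ≤ 2 ^ B / 8 := by
      intro Q hQ
      have h2 : ∑ p ∈ S, ((Q p).card : ℝ) ≤ S.card * (3 * 2 ^ B / (48 * (L : ℝ) ^ 4)) := by
        rw [← nsmul_eq_mul]
        apply sum_le_card_nsmul
        intro p hp
        rw [le_div_iff₀ hL4, mul_comm]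
        exact hQ p hp
      refine h2.trans ?_
      calc (S.card : ℝ) * (3 * 2 ^ B / (48 * (L : ℝ) ^ 4)) ≤
          2 * (L : ℝ) ^ 4 * (3 * 2 ^ B / (48 * (L : ℝ) ^ 4)) :=
            mul_le_mul_of_nonneg_right hcS (by positivity)
        _ = 2 ^ B / 8 := by
          field_simp
          norm_num
    have h2 := hs B1 fun p hp => (hb12 p hp).1
    have h3 := hs B2 fun p hp => (hb12 p hp).2
    have h4 : ∑ p ∈ R, ((B3 p).card : ℝ) ≤ 2 ^ B / 4 := by
      have h5 : ∑ p ∈ R, ((B3 p).card : ℝ) ≤ R.card * (L * (2 ^ B / L ^ 4 + 1)) := by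
        rw [← nsmul_eq_mul]
        exact sum_le_card_nsmul _ _ _ hb3
      have h6 : (R.card : ℝ) * (L * (2 ^ B / L ^ 4 + 1)) ≤ L * L * (L * (2 ^ B / L ^ 4 + 1)) :=
        mul_le_mul_of_nonneg_right hcR (by positivity)
      have h7 : (L : ℝ) * L * (L * (2 ^ B / L ^ 4 + 1)) = 2 ^ B / L + L ^ 3 := by
        field_simp
      have h8 : (2 : ℝ) ^ B / L ≤ 2 ^ B / 8 :=
        div_le_div_of_nonneg_left hUpos.le (by norm_num) hL8'
      linarith only [h5, h6, h7, h8, hU8]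
    linarith only [h1, h2, h3, h4, hUpos]
  obtain ⟨u, hu, hu1, hu2, hu3⟩ := hex
  refine ⟨u, hu, ?_, ?_⟩
  · intro p hpp hPp hpL
    have hpS : p ∈ S := by
      rw [hS, mem_filter, mem_range]
      exact ⟨by omega, hpp, hPp⟩
    have h1 := hu1 p hpS
    have h2 := hu2 p hpS
    rw [hB1, mem_filter, mem_range] at h1
    rw [hB2, mem_filter, mem_range] at h2
    push Not at h1 h2
    have haM : α * 2 ^ B + u ≤ M := by omega
    exact (bot_small hpp.two_le hpL (hP₀ p hPp) hL1 hL2 hL8 hB hθB haM (h1 hu).le (h2 hu).le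
      (hT p hpp hPp hpL))
  · intro p hpp hpL
    by_cases h : L ≤ M % p
    · exact Or.inl h
    · right
      push Not at h
      have hpM : p ≤ M := by
        by_contra hc
        push Not at hc
        rw [Nat.mod_eq_of_lt hc] at h
        omega
      have hpR : p ∈ R := by
        rw [hR, mem_filter, mem_range]
        exact ⟨by omega, hpp, hpL, h⟩
      have h1 := hu3 p hpR
      rw [hB3, mem_filter, mem_range] at h1
      push Not at h1
      exact h1 hu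

end Pool.Agent.H93.AS
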