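import Pool.Agent.H93.AS.Defs

/-! # MP_1f2761, assembly: row BOT, tools (carries and counting) -/

set_option autoImplicit false

open Finset Filter Topology

namespace Pool.Agent.H93.AS

open Pool.Agent.H27.Fact (sp sp_split sp_add_mul sp_zero card_shift card_R_le)

theorem bot_div {q : ℕ} (hq : 0 < q) (a b : ℕ) :
    (a + b) / q = a / q + b / q + (if (a + b) % q < a % q then 1 else 0) := by
  have ha := Nat.mod_lt a hq
  have hb := Nat.mod_lt b hq
  have h : (q ≤ a % q + b % q) ↔ ((a + b) % q < a % q) := by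
    have e : (a + b) % q = (a % q + b % q) % q := Nat.add_mod a b q
    generalize a % q = x at *
    generalize b % q = y at *
    by_cases hc : q ≤ x + y
    · have e2 : (x + y) % q = x + y - q := by
        rw [Nat.mod_eq_sub_mod hc, Nat.mod_eq_of_lt (by omega)]
      rw [e, e2]
      omega
    · have e2 : (x + y) % q = x + y := Nat.mod_eq_of_lt (by omega)
      rw [e, e2]
      omega
  rw [Nat.add_div hq]
  simp only [h]

theorem bot_sp {p : ℕ} (hp : 2 ≤ p) (x j : ℕ) :
    sp p (x % p ^ (j + 1)) = sp p (x % p ^ j) + x / p ^ j % p := by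
  have h1 : sp p (x / p ^ j % p) = x / p ^ j % p := by
    have := sp_add_mul hp (d := x / p ^ j % p) (y := 0) (Nat.mod_lt _ (by omega))
    rw [mul_zero, add_zero, sp_zero, add_zero] at this
    exact this
  rw [Nat.mod_pow_succ, sp_split hp j _ _ (Nat.mod_lt _ (by positivity)), h1]

/-- digit sums and carries -/
theorem bot_carry {p : ℕ} (hp : 2 ≤ p) (a b : ℕ) : ∀ j : ℕ,
    sp p (a % p ^ j) + sp p (b % p ^ j) = sp p ((a + b) % p ^ j) +
      (p - 1) * (∑ i ∈ Ico 1 (j + 1), if (a + b) % p ^ i < a % p ^ i then 1 else 0) +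
      (if (a + b) % p ^ j < a % p ^ j then 1 else 0) := by
  intro j
  induction j with
  | zero => simp [Nat.mod_one, sp_zero]
  | succ j ih =>
    rw [bot_sp hp, bot_sp hp, bot_sp hp, sum_Ico_succ_top (by omega : 1 ≤ j + 1)]
    have h1 := bot_div (by positivity : 0 < p ^ j) a b
    have h2 := bot_div (by positivity : 0 < p ^ (j + 1)) a b
    have e : ∀ x, x / p ^ (j + 1) = x / p ^ j / p := fun x => by
      rw [pow_succ, Nat.div_div_eq_div_mul]
    rw [e, e, e] at h2
    have d1 := Nat.mod_add_div (a / p ^ j) p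
    have d2 := Nat.mod_add_div (b / p ^ j) p
    have d3 := Nat.mod_add_div ((a + b) / p ^ j) p
    obtain ⟨r, hr⟩ : ∃ r, p = r + 1 := ⟨p - 1, by omega⟩
    have hr1 : p - 1 = r := by omega
    rw [hr1] at ih ⊢
    generalize (if (a + b) % p ^ j < a % p ^ j then 1 else 0) = k0 at *
    generalize (if (a + b) % p ^ (j + 1) < a % p ^ (j + 1) then 1 else 0) = k1 at *
    generalize (∑ i ∈ Ico 1 (j + 1), if (a + b) % p ^ i < a % p ^ i then 1 else 0) = S at *
    have d4 : a / p ^ j % p + b / p ^ j % p + k0 = (a + b) / p ^ j % p + p * k1 := by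
      have h3 : p * ((a + b) / p ^ j / p) = p * (a / p ^ j / p) + p * (b / p ^ j / p) + p * k1 := by
        rw [h2]
        ring
      omega
    have d5 : p * k1 = r * k1 + k1 := by
      rw [hr]
      ring
    have d6 : r * (S + k1) = r * S + r * k1 := by ring
    rw [d6]
    omega

/-- carries from digit sums -/
theorem bot_cp {p : ℕ} (hp : 2 ≤ p) {L M a j : ℕ} (ha : a ≤ M) (hj : j ≤ L)
    {x y z : ℝ} (hx : x ≤ sp p (a % p ^ j)) (hy : y ≤ sp p ((M - a) % p ^ j))
    (hz : (sp p (M % p ^ j) : ℝ) ≤ z) :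
    (x + y - z) / (p - 1) - 1 ≤ Cp p L M a := by
  have hp1 : (1 : ℝ) ≤ (p : ℝ) - 1 := by
    have : (2 : ℝ) ≤ p := by exact_mod_cast hp
    linarith only [this]
  have h1 := bot_carry hp a (M - a) j
  rw [Nat.add_sub_cancel' ha] at h1
  have h2 : (∑ i ∈ Ico 1 (j + 1), if M % p ^ i < a % p ^ i then 1 else 0) ≤ Cp p L M a := by
    rw [← card_filter]
    apply card_le_card
    apply filter_subset_filter
    exact Ico_subset_Ico le_rfl (by omega)
  have h3 : (if M % p ^ j < a % p ^ j then 1 else 0) ≤ 1 := by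
    split_ifs
    · exact le_rfl
    · exact Nat.zero_le 1
  have h4 : sp p (a % p ^ j) + sp p ((M - a) % p ^ j) ≤
      sp p (M % p ^ j) + (p - 1) * Cp p L M a + 1 := by
    rw [h1]
    exact Nat.add_le_add (Nat.add_le_add_left (Nat.mul_le_mul_left _ h2) _) h3
  have h5 : (sp p (a % p ^ j) : ℝ) + sp p ((M - a) % p ^ j) ≤
      sp p (M % p ^ j) + ((p : ℝ) - 1) * Cp p L M a + 1 := by
    have h6 : (((sp p (a % p ^ j) + sp p ((M - a) % p ^ j) : ℕ)) : ℝ) ≤
        ((sp p (M % p ^ j) + (p - 1) * Cp p L M a + 1 : ℕ) : ℝ) := by exact_mod_cast h4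
    push_cast [Nat.cast_sub (by omega : 1 ≤ p)] at h6
    exact h6
  rw [sub_le_iff_le_add, div_le_iff₀ (by linarith only [hp1])]
  have h7 : ((Cp p L M a : ℝ) + 1) * ((p : ℝ) - 1) = ((p : ℝ) - 1) * Cp p L M a + (p - 1) := by
    ring
  rw [h7]
  linarith only [h5, hx, hy, hz, hp1]

/-- bad `u` for `a` -/
theorem bot_e1 {p j B : ℕ} (hp : 2 ≤ p) (hj : p ^ j ≤ 2 ^ B) (C : ℕ) :
    (((range (2 ^ B)).filter fun u => (sp p ((C + u) % p ^ j) : ℝ) ≤
      (1 / 2 - 1 / 20) * (p - 1) * j).card : ℝ) ≤ 3 * 2 ^ B * Real.exp (-(j / 200)) := by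
  have h1 := card_shift (p := p) (e := j) (x := 2 ^ B) (C := C) hp (ε := 1 / 20) (by norm_num) hj
  have h2 : ((range (2 ^ B)).filter fun u => (sp p ((C + u) % p ^ j) : ℝ) ≤
      (1 / 2 - 1 / 20) * (p - 1) * j) ⊆ ((range (2 ^ B + 1)).filter
      (fun n => (sp p ((n + C) % p ^ j) : ℝ) ≤ (1 / 2 - 1 / 20) * (p - 1) * j)) := by
    intro u hu
    rw [mem_filter, mem_range] at hu ⊢
    refine ⟨by omega, ?_⟩
    rw [add_comm u C]
    exact hu.2
  have h3 : (((range (2 ^ B)).filter fun u => (sp p ((C + u) % p ^ j) : ℝ) ≤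
      (1 / 2 - 1 / 20) * (p - 1) * j).card : ℝ) ≤ (((range (2 ^ B + 1)).filter
      (fun n => (sp p ((n + C) % p ^ j) : ℝ) ≤ (1 / 2 - 1 / 20) * (p - 1) * j)).card : ℝ) := by
    exact_mod_cast card_le_card h2
  refine h3.trans (h1.trans (le_of_eq ?_))
  push_cast
  congr 2
  ring

/-- bad `u` for `M - a` -/
theorem bot_e2 {p j B : ℕ} (hp : 2 ≤ p) (hj : p ^ j ≤ 2 ^ B) {C M : ℕ} (hC : C + 2 ^ B ≤ M) :
    (((range (2 ^ B)).filter fun u => (sp p ((M - (C + u)) % p ^ j) : ℝ) ≤
      (1 / 2 - 1 / 20) * (p - 1) * j).card : ℝ) ≤ 3 * 2 ^ B * Real.exp (-(j / 200)) := by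
  have h1 := bot_e1 hp hj (M - (C + 2 ^ B - 1))
  refine le_trans ?_ h1
  have h2 : ((range (2 ^ B)).filter fun u => (sp p ((M - (C + u)) % p ^ j) : ℝ) ≤
      (1 / 2 - 1 / 20) * (p - 1) * j).card ≤ ((range (2 ^ B)).filter fun u =>
      (sp p (((M - (C + 2 ^ B - 1)) + u) % p ^ j) : ℝ) ≤ (1 / 2 - 1 / 20) * (p - 1) * j).card := by
    apply card_le_card_of_injOn (fun u => 2 ^ B - 1 - u)
    · intro u hu
      have hu' := mem_filter.1 (mem_coe.1 hu)
      have hu1 := mem_range.1 hu'.1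
      apply mem_coe.2
      rw [mem_filter, mem_range]
      have e : M - (C + 2 ^ B - 1) + (2 ^ B - 1 - u) = M - (C + u) := by
        clear hu' h1
        generalize 2 ^ B = U at *
        omega
      have e' : 2 ^ B - 1 - u < 2 ^ B := by
        clear hu' h1 e
        generalize 2 ^ B = U at *
        omega
      refine ⟨e', ?_⟩
      show (sp p ((M - (C + 2 ^ B - 1) + (2 ^ B - 1 - u)) % p ^ j) : ℝ) ≤ _
      rw [e]
      exact hu'.2
    · intro u hu u' hu' he
      have h3 := mem_range.1 (mem_filter.1 (mem_coe.1 hu)).1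
      have h4 := mem_range.1 (mem_filter.1 (mem_coe.1 hu')).1
      have h5 : 2 ^ B - 1 - u = 2 ^ B - 1 - u' := he
      omega
  exact_mod_cast h2

/-- bad `u` for a large prime -/
theorem bot_e3 {p L : ℕ} (U C : ℕ) :
    ((range U).filter fun u => (C + u) % p < L).card ≤ L * (U / p + 1) := by
  have h : ((range U).filter fun u => (C + u) % p < L).card ≤
      (range L ×ˢ range (U / p + 1)).card := by
    apply card_le_card_of_injOn (fun u => ((C + u) % p, u / p))
    · intro u hu
      have hu' := mem_filter.1 (mem_coe.1 hu)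
      have hu1 := mem_range.1 hu'.1
      have hmem : ((C + u) % p, u / p) ∈ range L ×ˢ range (U / p + 1) := by
        rw [mem_product, mem_range, mem_range]
        refine ⟨hu'.2, ?_⟩
        have := Nat.div_le_div_right (c := p) hu1.le
        show u / p < U / p + 1
        omega
      exact hmem
    · intro u _ u' _ he
      simp only [Prod.mk.injEq] at he
      have h1 : C + u ≡ C + u' [MOD p] := he.1
      have h2 : u % p = u' % p := Nat.ModEq.add_left_cancel' C h1
      rw [← Nat.mod_add_div u p, ← Nat.mod_add_div u' p, h2, he.2]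
  rw [card_product, card_range, card_range] at h
  exact h

end Pool.Agent.H93.AS
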