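import Pool.Agent.H18.AS.NRM

/-! # MP_1f2761, assembly: row FIN (the average) -/

set_option autoImplicit false

open Finset Filter Topology

namespace Pool.Agent.H93.AS

open Classical in
/-- lower bound for the sum -/
theorem fin_low (h : DYAStmt) {ε : ℝ} (hε : 0 < ε) : ∀ᶠ x : ℕ in atTop,
    (1 / Real.log 2 - ε) * (x * Real.log x) ≤ ∑ n ∈ Icc 1 x, (Nfa7bfd82.g 2 n : ℝ) := by
  have l2 : 0 < Real.log 2 := Real.log_pos (by norm_num)
  obtain ⟨η, hη0, hη1, hη2⟩ : ∃ η : ℝ, 0 < η ∧ η < 1 ∧ 2 * (η / Real.log 2) ≤ ε / 2 := by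
    refine ⟨min (1 / 2) (ε * Real.log 2 / 4), lt_min (by norm_num) (by positivity),
      (min_le_left _ _).trans_lt (by norm_num), ?_⟩
    have h1 : min (1 / 2) (ε * Real.log 2 / 4) / Real.log 2 ≤ ε / 4 := by
      rw [div_le_iff₀ l2]
      refine (min_le_right _ _).trans (le_of_eq ?_)
      ring
    linarith only [h1]
  have ht : Tendsto (fun n : ℕ => Real.log n) atTop atTop :=
    Real.tendsto_log_atTop.comp tendsto_natCast_atTop_atTop
  filter_upwards [nrm_low h hη0 hη1 hη0, eventually_gt_atTop 1,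
    ht.eventually (eventually_ge_atTop (2 / ε)),
    ht.eventually (eventually_ge_atTop (Real.log 2 / (1 - η)))] with x hx hx1 hx2 hx3
  have hx1' : (1 : ℝ) < x := by exact_mod_cast hx1
  have hL : 0 < Real.log x := Real.log_pos hx1'
  set B : ℝ := (1 - η) * (Real.log x / Real.log 2) - 1 with hB
  have hB0 : 0 ≤ B := by
    rw [div_le_iff₀ (by linarith only [hη1])] at hx3
    have h1 : 1 ≤ (1 - η) * (Real.log x / Real.log 2) := by
      rw [← mul_div_assoc, le_div_iff₀ l2]
      linarith only [hx3]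
    linarith only [h1, hB]
  set S := (Icc 1 x).filter (fun n => ¬ ((Nfa7bfd82.g 2 n : ℝ) < B)) with hS
  have h1 : (x : ℝ) ≤ S.card + (((Icc 1 x).filter fun n : ℕ =>
      (Nfa7bfd82.g 2 n : ℝ) < B).card : ℝ) := by
    have h2 := card_filter_add_card_filter_not (s := Icc 1 x)
      (fun n : ℕ => (Nfa7bfd82.g 2 n : ℝ) < B)
    rw [Nat.card_Icc, Nat.add_sub_cancel] at h2
    have h3 : ((((Icc 1 x).filter fun n : ℕ => (Nfa7bfd82.g 2 n : ℝ) < B).card + S.card : ℕ) : ℝ) =
        (x : ℝ) := by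
      exact_mod_cast h2
    push_cast at h3
    linarith only [h3]
  have h4 : (1 - η) * x ≤ S.card := by linarith only [h1, hx]
  have h5 : (S.card : ℝ) * B ≤ ∑ n ∈ Icc 1 x, (Nfa7bfd82.g 2 n : ℝ) := by
    calc (S.card : ℝ) * B = ∑ _n ∈ S, B := by
          rw [sum_const, nsmul_eq_mul]
      _ ≤ ∑ n ∈ S, (Nfa7bfd82.g 2 n : ℝ) := by
          apply sum_le_sum
          intro n hn
          rw [hS, mem_filter] at hn
          exact not_lt.1 hn.2
      _ ≤ ∑ n ∈ Icc 1 x, (Nfa7bfd82.g 2 n : ℝ) := by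
          apply sum_le_sum_of_subset_of_nonneg (filter_subset _ _)
          intro n _ _
          exact Nat.cast_nonneg _
  refine le_trans ?_ h5
  have h6 : (1 - η) * x * B ≤ S.card * B := mul_le_mul_of_nonneg_right h4 hB0
  refine le_trans ?_ h6
  rw [div_le_iff₀ hε] at hx2
  have h7 : (1 - η) * x * B = (1 - η) ^ 2 * (x * (Real.log x / Real.log 2)) - (1 - η) * x := by
    rw [hB]
    ring
  have h8 : (1 - 2 * η) * (x * (Real.log x / Real.log 2)) ≤
      (1 - η) ^ 2 * (x * (Real.log x / Real.log 2)) := by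
    apply mul_le_mul_of_nonneg_right _ (by positivity)
    have := sq_nonneg η
    linarith only [this]
  have h9 : (1 - η) * x ≤ ε / 2 * (x * Real.log x) := by
    have h10 : 1 ≤ ε / 2 * Real.log x := by linarith only [hx2]
    have h11 : (x : ℝ) * 1 ≤ x * (ε / 2 * Real.log x) :=
      mul_le_mul_of_nonneg_left h10 (by linarith only [hx1'])
    have h12 : 0 ≤ η * (x : ℝ) := mul_nonneg hη0.le (by linarith only [hx1'])
    linarith only [h11, h12]
  have h13 : 2 * (η / Real.log 2) * (x * Real.log x) ≤ ε / 2 * (x * Real.log x) :=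
    mul_le_mul_of_nonneg_right hη2 (by positivity)
  have h14 : (1 - 2 * η) * (x * (Real.log x / Real.log 2)) =
      1 / Real.log 2 * (x * Real.log x) - 2 * (η / Real.log 2) * (x * Real.log x) := by
    ring
  linarith only [h7, h8, h9, h13, h14]

/-- row FIN -/
theorem fin : FINStmt := by
  intro h
  rw [Metric.tendsto_atTop]
  intro ε hε
  obtain ⟨n₁, hn₁⟩ := eventually_atTop.1 (fin_low h (ε := ε / 2) (by positivity))
  obtain ⟨n₂, hn₂⟩ := eventually_atTop.1
    (Pool.Agent.H27.Fact.upper_sum 1 (ε := ε / 2) (by positivity))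
  refine ⟨n₁ + n₂ + 2, fun x hx => ?_⟩
  have h1 := hn₁ x (by omega)
  have h2 := hn₂ x (by omega)
  have hx1 : (1 : ℝ) < x := by exact_mod_cast (by omega : 1 < x)
  have hL : 0 < Real.log x := Real.log_pos hx1
  have hpos : 0 < (x : ℝ) * Real.log x := mul_pos (by linarith only [hx1]) hL
  have h3 : ∑ n ∈ Icc 1 x, (Nfa7bfd82.g 2 n : ℝ) ≤
      (1 / Real.log 2 + ε / 2) * (x * Real.log x) := by
    have h4 : (((1 : ℕ) : ℝ) / Real.log 2 + ε / 2) * (x * Real.log x) =
        (1 / Real.log 2 + ε / 2) * (x * Real.log x) := by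
      push_cast
      ring
    rw [← h4]
    exact h2
  rw [Real.dist_eq, abs_lt]
  constructor
  · rw [lt_sub_iff_add_lt, lt_div_iff₀ hpos]
    have h5 : 0 < ε / 2 * (x * Real.log x) := by positivity
    linarith only [h1, h5]
  · rw [sub_lt_iff_lt_add, div_lt_iff₀ hpos]
    have h5 : 0 < ε / 2 * (x * Real.log x) := by positivity
    linarith only [h3, h5]

end Pool.Agent.H93.AS
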