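import Pool.Agent.H93.AS.Defs

/-! # MP_1f2761, assembly: row NRM (normal order) -/

set_option autoImplicit false

open Finset Filter Topology

namespace Pool.Agent.H93.AS

open Classical in
/-- from dyadic ranges to all ranges -/
theorem nrm_low (h : DYAStmt) {ε δ : ℝ} (hε : 0 < ε) (hε1 : ε < 1) (hδ : 0 < δ) :
    ∀ᶠ x : ℕ in atTop, (((Icc 1 x).filter fun n : ℕ =>
      (Nfa7bfd82.g 2 n : ℝ) < (1 - ε) * (Real.log x / Real.log 2) - 1).card : ℝ) ≤ δ * x := by
  obtain ⟨L₀, hL⟩ := h ε hε (δ / 4) (by positivity)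
  filter_upwards [eventually_ge_atTop (2 ^ (L₀ + 4))] with x hx
  have hx0 : x ≠ 0 := by
    have : 0 < 2 ^ (L₀ + 4) := by positivity
    omega
  have hl1 : 2 ^ Nat.log 2 x ≤ x := Nat.pow_log_le_self 2 hx0
  have hl2 : x < 2 ^ (Nat.log 2 x + 1) := Nat.lt_pow_succ_log_self (by norm_num) x
  have hl3 : L₀ + 4 ≤ Nat.log 2 x := Nat.le_log_of_pow_le (by norm_num) hx
  set l := Nat.log 2 x with hl
  set L := l + 2 with hLd
  set G := ⌊(1 - ε) * L⌋₊ with hG
  have hb := hL L (by omega)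
  have hGL : G ≤ L := by
    have h1 : (1 - ε) * (L : ℝ) ≤ L := by
      have : (0 : ℝ) ≤ L := Nat.cast_nonneg L
      nlinarith
    exact Nat.floor_le_of_le h1
  have hLx : L ≤ 2 ^ (l + 1) := by
    have h1 : l + 1 < 2 ^ (l + 1) := Nat.lt_two_pow_self
    omega
  have hG2 : (1 - ε) * (Real.log x / Real.log 2) - 1 ≤ G := by
    have l2 : 0 < Real.log 2 := Real.log_pos (by norm_num)
    have h1 : Real.log x / Real.log 2 ≤ L := by
      rw [div_le_iff₀ l2]
      have h2 : (x : ℝ) ≤ (2 : ℝ) ^ (l + 1) := by exact_mod_cast hl2.le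
      have h3 : Real.log x ≤ Real.log ((2 : ℝ) ^ (l + 1)) :=
        Real.log_le_log (by exact_mod_cast Nat.pos_of_ne_zero hx0) h2
      rw [Real.log_pow] at h3
      refine h3.trans ?_
      have h4 : (((l + 1 : ℕ)) : ℝ) ≤ (L : ℝ) := by exact_mod_cast (by omega : l + 1 ≤ L)
      exact mul_le_mul_of_nonneg_right h4 l2.le
    have h5 : (1 - ε) * (Real.log x / Real.log 2) ≤ (1 - ε) * L :=
      mul_le_mul_of_nonneg_left h1 (by linarith)
    have h6 : (1 - ε) * (L : ℝ) < G + 1 := Nat.lt_floor_add_one _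
    linarith
  have hcard : ((Icc 1 x).filter fun n : ℕ =>
      (Nfa7bfd82.g 2 n : ℝ) < (1 - ε) * (Real.log x / Real.log 2) - 1).card ≤
      ((range (2 ^ L)).filter fun M => G ≤ M ∧ Nfa7bfd82.g 2 (M - G) < G).card := by
    apply card_le_card_of_injOn (fun n => n + G)
    · intro n hn
      have hn' := mem_filter.1 (mem_coe.1 hn)
      have hn1 := mem_Icc.1 hn'.1
      apply mem_coe.2
      rw [mem_filter, mem_range]
      refine ⟨?_, ?_, ?_⟩
      · show n + G < 2 ^ L
        have : 2 ^ L = 2 ^ (l + 1) + 2 ^ (l + 1) := by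
          rw [hLd]
          ring
        omega
      · show G ≤ n + G
        omega
      · show Nfa7bfd82.g 2 (n + G - G) < G
        rw [Nat.add_sub_cancel]
        have := hn'.2.trans_le hG2
        exact_mod_cast this
    · intro a _ b _ hab
      have : a + G = b + G := hab
      omega
  have h7 : (((Icc 1 x).filter fun n : ℕ =>
      (Nfa7bfd82.g 2 n : ℝ) < (1 - ε) * (Real.log x / Real.log 2) - 1).card : ℝ) ≤
      (((range (2 ^ L)).filter fun M => G ≤ M ∧ Nfa7bfd82.g 2 (M - G) < G).card : ℝ) := by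
    exact_mod_cast hcard
  have h8 : δ / 4 * (2 : ℝ) ^ L ≤ δ * x := by
    have h9 : (2 : ℝ) ^ L = 4 * 2 ^ l := by
      rw [hLd]
      ring
    have h10 : (2 : ℝ) ^ l ≤ x := by exact_mod_cast hl1
    rw [h9]
    nlinarith
  exact h7.trans (hb.trans h8)

open Classical in
/-- row NRM -/
theorem nrm : NRMStmt := by
  intro h ε hε
  have l2 : 0 < Real.log 2 := Real.log_pos (by norm_num)
  obtain ⟨ε', he0, he1, he2⟩ : ∃ ε' : ℝ, 0 < ε' ∧ ε' < 1 ∧ ε' / Real.log 2 ≤ ε / 2 := by
    refine ⟨min (1 / 2) (ε * Real.log 2 / 2), lt_min (by norm_num) (by positivity),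
      (min_le_left _ _).trans_lt (by norm_num), ?_⟩
    rw [div_le_iff₀ l2]
    refine (min_le_right _ _).trans (le_of_eq ?_)
    ring
  obtain ⟨n₀, hn₀⟩ := eventually_atTop.1 (Pool.Agent.H27.Fact.upper 1 hε)
  have ht : Tendsto (fun n : ℕ => Real.log n) atTop atTop :=
    Real.tendsto_log_atTop.comp tendsto_natCast_atTop_atTop
  obtain ⟨n₁, hn₁⟩ := eventually_atTop.1 (ht.eventually (eventually_ge_atTop (2 / ε)))
  rw [Metric.tendsto_atTop]
  intro δ hδ
  have hev := nrm_low h he0 he1 (δ := δ / 3) (by positivity)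
  obtain ⟨n₂, hn₂⟩ := eventually_atTop.1 hev
  obtain ⟨n₃, hn₃⟩ := exists_nat_gt (((n₀ + n₁ : ℕ) : ℝ) / (δ / 3))
  refine ⟨n₂ + n₃ + 1, fun x hx => ?_⟩
  have hx2 := hn₂ x (by omega)
  have hx0 : (0 : ℝ) < x := by exact_mod_cast (by omega : 0 < x)
  rw [Real.dist_eq, sub_zero, abs_of_nonneg (by positivity), div_lt_iff₀ hx0]
  have hsub : ((Icc 1 x).filter fun n : ℕ =>
      ¬ |(Nfa7bfd82.g 2 n : ℝ) - Real.log n / Real.log 2| ≤ ε * Real.log n) ⊆
      range (n₀ + n₁) ∪ ((Icc 1 x).filter fun n : ℕ =>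
      (Nfa7bfd82.g 2 n : ℝ) < (1 - ε') * (Real.log x / Real.log 2) - 1) := by
    intro n hn
    rw [mem_filter] at hn
    rw [mem_union, mem_range, mem_filter]
    by_cases hc : n < n₀ + n₁
    · exact Or.inl hc
    right
    refine ⟨hn.1, ?_⟩
    by_contra hcon
    push Not at hcon
    apply hn.2
    have hn1 := mem_Icc.1 hn.1
    have hup := hn₀ n (by omega)
    have hlg := hn₁ n (by omega)
    have h1 : Real.log n ≤ Real.log x := by
      apply Real.log_le_log
      · exact_mod_cast hn1.1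
      · exact_mod_cast hn1.2
    have hl0 : 0 < Real.log n := lt_of_lt_of_le (by positivity) hlg
    rw [abs_le]
    constructor
    · have h2 : Real.log n / Real.log 2 ≤ Real.log x / Real.log 2 :=
        div_le_div_of_nonneg_right h1 l2.le
      have h3 : (1 - ε') * (Real.log n / Real.log 2) ≤ (1 - ε') * (Real.log x / Real.log 2) :=
        mul_le_mul_of_nonneg_left h2 (by linarith)
      have h4 : 1 ≤ ε / 2 * Real.log n := by
        rw [div_le_iff₀ hε] at hlg
        linarith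
      have h5 : ε' * (Real.log n / Real.log 2) ≤ ε / 2 * Real.log n := by
        calc ε' * (Real.log n / Real.log 2) = ε' / Real.log 2 * Real.log n := by ring
          _ ≤ ε / 2 * Real.log n := mul_le_mul_of_nonneg_right he2 hl0.le
      linarith
    · have h6 : ((1 : ℕ) / Real.log 2 + ε) * Real.log n =
          Real.log n / Real.log 2 + ε * Real.log n := by
        push_cast
        ring
      have h7 : (Nfa7bfd82.g 2 n : ℝ) ≤ ((1 : ℕ) / Real.log 2 + ε) * Real.log n := hup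
      rw [h6] at h7
      linarith
  have h8 := (card_le_card hsub).trans (card_union_le _ _)
  rw [card_range] at h8
  have h9 : ((((Icc 1 x).filter fun n : ℕ =>
      ¬ |(Nfa7bfd82.g 2 n : ℝ) - Real.log n / Real.log 2| ≤ ε * Real.log n).card : ℕ) : ℝ) ≤
      ((n₀ + n₁ : ℕ) : ℝ) + (((Icc 1 x).filter fun n : ℕ =>
      (Nfa7bfd82.g 2 n : ℝ) < (1 - ε') * (Real.log x / Real.log 2) - 1).card : ℝ) := by
    exact_mod_cast h8
  have h10 : ((n₀ + n₁ : ℕ) : ℝ) ≤ δ / 3 * x := by
    rw [div_lt_iff₀ (by positivity)] at hn₃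
    have h11 : (n₃ : ℝ) ≤ x := by exact_mod_cast (by omega : n₃ ≤ x)
    have h12 : (n₃ : ℝ) * (δ / 3) ≤ x * (δ / 3) := mul_le_mul_of_nonneg_right h11 (by positivity)
    linarith
  have h13 : 0 < δ * x := by positivity
  linarith

end Pool.Agent.H93.AS
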